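import Mathlib

/-! The periodic profile `θ` used to open and close the doors. -/

set_option autoImplicit false

open Set Filter Topology

namespace T6H52.Cvx

/-- A smooth `1`-periodic profile with values in `[0,1]`, equal to `0` near the integers and to `1`
near the half-integers, with bounded first and second derivative. -/
structure Profile where
  t : ℝ → ℝ
  t1 : ℝ → ℝ
  t2 : ℝ → ℝ
  M : ℝ
  d1 : ∀ x, HasDerivAt t (t1 x) x
  d2 : ∀ x, HasDerivAt t1 (t2 x) x
  nonneg : ∀ x, 0 ≤ t x
  le_one : ∀ x, t x ≤ 1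
  hM : 1 ≤ M
  b1 : ∀ x, |t1 x| ≤ M
  b2 : ∀ x, |t2 x| ≤ M
  zero : ∀ m : ℤ, ∀ᶠ x in 𝓝 (m : ℝ), t x = 0
  one : ∀ m : ℤ, ∀ᶠ x in 𝓝 ((m : ℝ) + 1 / 2), t x = 1

theorem exists_profile : Nonempty Profile := by
  set u : ℝ → ℝ := fun x => 1 / 2 - Real.cos (2 * Real.pi * x) with hu
  have hucd : ContDiff ℝ 2 u := by
    rw [hu]
    exact contDiff_const.sub (Real.contDiff_cos.comp (contDiff_const.mul contDiff_id))
  set t : ℝ → ℝ := fun x => Real.smoothTransition (u x) with ht
  have htcd : ContDiff ℝ 2 t := (Real.smoothTransition.contDiff (n := 2)).comp hucd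
  have hper : Function.Periodic t 1 := by
    intro x
    simp only [ht, hu]
    have : 2 * Real.pi * (x + 1) = 2 * Real.pi * x + 2 * Real.pi := by ring
    rw [this, Real.cos_add_two_pi]
  have hd : Differentiable ℝ t := htcd.differentiable (by norm_num)
  have ht1cd : ContDiff ℝ 1 (deriv t) := by
    have h2 : ContDiff ℝ (1 + 1) t := by
      rw [one_add_one_eq_two]; exact htcd
    exact (contDiff_succ_iff_deriv.1 h2).2.2
  have hd1 : Differentiable ℝ (deriv t) := ht1cd.differentiable (by norm_num)
  have hc2 : Continuous (deriv (deriv t)) := ht1cd.continuous_deriv (le_refl _)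
  have hper1 : Function.Periodic (deriv t) 1 := by
    intro x
    have h : (fun y => t (y + 1)) = t := funext hper
    have h2 := deriv_comp_add_const t 1 x
    rw [← h2, h]
  have hper2 : Function.Periodic (deriv (deriv t)) 1 := by
    intro x
    have h : (fun y => deriv t (y + 1)) = deriv t := funext hper1
    have h2 := deriv_comp_add_const (deriv t) 1 x
    rw [← h2, h]
  obtain ⟨M1, hM1⟩ := (hper1.isBounded_of_continuous one_ne_zero hd1.continuous).exists_norm_le
  obtain ⟨M2, hM2⟩ := (hper2.isBounded_of_continuous one_ne_zero hc2).exists_norm_le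
  refine ⟨⟨t, deriv t, deriv (deriv t), max 1 (max M1 M2), fun x => (hd x).hasDerivAt,
    fun x => (hd1 x).hasDerivAt, fun x => Real.smoothTransition.nonneg _,
    fun x => Real.smoothTransition.le_one _, le_max_left _ _, fun x => ?_, fun x => ?_, ?_, ?_⟩⟩
  · have := hM1 (deriv t x) ⟨x, rfl⟩
    rw [Real.norm_eq_abs] at this
    exact this.trans ((le_max_left _ _).trans (le_max_right _ _))
  · have := hM2 (deriv (deriv t) x) ⟨x, rfl⟩
    rw [Real.norm_eq_abs] at this
    exact this.trans ((le_max_right _ _).trans (le_max_right _ _))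
  · intro m
    have h1 : u (m : ℝ) < 0 := by
      simp only [hu]
      have : Real.cos (2 * Real.pi * (m : ℝ)) = 1 := by
        rw [mul_comm]; exact Real.cos_int_mul_two_pi m
      rw [this]; norm_num
    have h2 : ∀ᶠ x in 𝓝 (m : ℝ), u x < 0 := hucd.continuous.continuousAt.eventually_lt_const h1
    filter_upwards [h2] with x hx
    exact Real.smoothTransition.zero_of_nonpos hx.le
  · intro m
    have h1 : 1 < u ((m : ℝ) + 1 / 2) := by
      simp only [hu]
      have : 2 * Real.pi * ((m : ℝ) + 1 / 2) = (m : ℝ) * (2 * Real.pi) + Real.pi := by ring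
      rw [this, Real.cos_add_pi, Real.cos_int_mul_two_pi]; norm_num
    have h2 : ∀ᶠ x in 𝓝 ((m : ℝ) + 1 / 2), 1 < u x :=
      hucd.continuous.continuousAt.eventually_const_lt h1
    filter_upwards [h2] with x hx
    exact Real.smoothTransition.one_of_one_le hx.le

end T6H52.Cvx
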